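import Pool.Agent.Lib.MP_5c318e_ag.Fp.PwDefs
import Pool.Agent.Lib.MP_5c318e_ag.W.LP
import Pool.Agent.Lib.MP_5c318e_ag.RD.RMain

/-! Calculus and integration on the fibre powers of a family. -/

set_option autoImplicit false
set_option linter.unusedSectionVars false

namespace Pool.Agent.Lib.MP_5c318e_ag

open MeasureTheory Set Filter Topology Function
open Pool.Agent.Lib.MP_9ff3e7_ag

section abs

variable {ι S S' : Type} [Fintype ι] [TopologicalSpace S] [MeasurableSpace S] [BorelSpace S]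
  [TopologicalSpace S'] [MeasurableSpace S'] [BorelSpace S']

theorem RD.exists_tr (D : RD ι S) (e : S ≃ₜ S') :
    ∃ D' : RD ι S', (∀ p, D'.π p = D.π (e.symm p)) ∧ D'.μ = D.μ.map e :=
  ⟨⟨fun p => D.π (e.symm p), D.loc.comp e.symm.isLocalHomeomorph, D.μ.map e, fun A hA hi => by
    rw [Measure.map_apply e.continuous.measurable hA, D.vol _ (e.continuous.measurable hA)
      fun p hp q hq h => e.injective (hi hp hq (by simpa using h)), ← image_image D.π e.symm,
      e.image_symm]⟩, fun _ => rfl, rfl⟩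

theorem RD.Exh.bdd {D : RD ι S} {s : S → ℝ} (hs : D.Exh s) : ∃ c, ∀ x, c ≤ s x := by
  obtain ⟨c, hc⟩ := ((hs.2 0).image hs.1.1.cont).bddBelow
  exact ⟨min c 0, fun x => (le_total (s x) 0).elim
    (fun h => (min_le_left _ _).trans (hc ⟨x, h, rfl⟩)) fun h => (min_le_right _ _).trans h⟩

/-- an exhaustion function of any space with finitely many holomorphic functions that are proper -/
theorem RD.exh_of_proper {ι S : Type} [Fintype ι] [TopologicalSpace S] [MeasurableSpace S]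
    (D : RD ι S) {l : Type} [Fintype l] {g : l → S → ℂ} (hg : ∀ j, D.Hol (g j))
    (hp : ∀ R : ℝ, IsCompact {x | ∀ j, ‖g j x‖ ≤ R}) :
    D.Exh fun x => Real.log (1 + ∑ j, ‖g j x‖ ^ 2) := by
  have h : D.Psh fun x => Real.log (1 + ∑ j, ‖g j x‖ ^ 2) := by
    simp only [add_comm (1 : ℝ)]
    exact RD.WP.psh_sos Finset.univ (fun j _ => hg j) one_pos
  refine ⟨h, fun c => (hp (Real.exp c)).of_isClosed_subset
    (isClosed_le h.1.cont continuous_const) fun x hx j => ?_⟩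
  have h0 : 0 ≤ ∑ j, ‖g j x‖ ^ 2 := by positivity
  have h1 := (Real.log_le_iff_le_exp (by positivity)).1 hx
  have h2 := Finset.single_le_sum (f := fun j => ‖g j x‖ ^ 2) (fun _ _ => by positivity)
    (Finset.mem_univ j)
  nlinarith [sq_nonneg (‖g j x‖ - 1), norm_nonneg (g j x)]

end abs

variable {δ ν K M : Type} [Fintype δ] [DecidableEq δ] [Fintype ν] [DecidableEq ν]
  [Field K] [Algebra ℂ K] [Field M] [Algebra ℂ M] [Algebra K M] [IsScalarTower ℂ K M] {B : Cht δ K}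
  {κ : Type} [Fintype κ] [DecidableEq κ]

namespace Rel

theorem ana_cb (z : δ ⊕ κ × ν → ℂ) : AnalyticAt ℂ (cb : (δ ⊕ κ × ν → ℂ) → δ → ℂ) z :=
  AnalyticAt.pi fun i => (ContinuousLinearMap.proj (R := ℂ) (φ := fun _ : δ ⊕ κ × ν => ℂ)
    (Sum.inl i)).analyticAt z

theorem ana_cs (k : κ) (z : δ ⊕ κ × ν → ℂ) :
    AnalyticAt ℂ (cs k : (δ ⊕ κ × ν → ℂ) → δ ⊕ ν → ℂ) z :=
  AnalyticAt.pi fun i => by
    rcases i with i | i
    · exact (ContinuousLinearMap.proj (R := ℂ) (φ := fun _ : δ ⊕ κ × ν => ℂ)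
        (Sum.inl i)).analyticAt z
    · exact (ContinuousLinearMap.proj (R := ℂ) (φ := fun _ : δ ⊕ κ × ν => ℂ)
        (Sum.inr (k, i))).analyticAt z

variable (T : Rel B ν M) {E : Type} [NormedAddCommGroup E]

theorem pow_inl (q : T.Pow κ) (i : δ) : (T.pow κ).π q (Sum.inl i) = B.D.π q.b i := by
  rw [pow_π]; rfl

theorem pow_inr (q : T.Pow κ) (k : κ) (j : ν) :
    (T.pow κ).π q (Sum.inr (k, j)) = q.p k (T.X.z (Sum.inr j)) := by
  rw [pow_π, ← T.X.π_eq]; rfl

theorem cb_pow (q : T.Pow κ) : cb ((T.pow κ).π q) = B.D.π q.b := by rw [pow_π, cb_powπ]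

theorem cs_pow (q : T.Pow κ) (k : κ) : cs k ((T.pow κ).π q) = T.X.D.π (q.p k) := by
  rw [pow_π, cs_powπ]

theorem pow_sec_b (q : T.Pow κ) : (fun z => ((T.pow κ).sec q z).b) =ᶠ[𝓝 ((T.pow κ).π q)]
    fun z => B.D.sec q.b (cb z) := by
  filter_upwards [((Pow.cont_b.tendsto q).comp ((T.pow κ).tendsto_sec q)).eventually
    ((B.D.ch q.b).open_source.mem_nhds (B.D.mem_src _)), (T.pow κ).π_sec_ev q] with z h1 h2
  refine (RD.sec_π h1).symm.trans (congrArg _ ?_)
  rw [comp_apply, ← cb_pow, h2]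

theorem pow_sec_p (q : T.Pow κ) (k : κ) : (fun z => ((T.pow κ).sec q z).p k) =ᶠ[𝓝 ((T.pow κ).π q)]
    fun z => T.X.D.sec (q.p k) (cs k z) := by
  filter_upwards [(((Pow.cont_p k).tendsto q).comp ((T.pow κ).tendsto_sec q)).eventually
    ((T.X.D.ch (q.p k)).open_source.mem_nhds (T.X.D.mem_src _)), (T.pow κ).π_sec_ev q] with z h1 h2
  refine (RD.sec_π h1).symm.trans (congrArg _ ?_)
  rw [comp_apply, ← cs_pow, h2]

theorem pow_diff_b [NormedSpace ℂ E] {f : Pt B.O → E} {q : T.Pow κ}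
    (h : DifferentiableAt ℂ (fun z => f (B.D.sec q.b z)) (B.D.π q.b)) :
    DifferentiableAt ℂ (fun z => f ((T.pow κ).sec q z).b) ((T.pow κ).π q) := by
  rw [← T.cb_pow q] at h
  exact (h.comp _ (ana_cb _).differentiableAt).congr_of_eventuallyEq
    ((T.pow_sec_b q).mono fun z e => congrArg f e)

theorem pow_diff_p [NormedSpace ℂ E] {f : Pt T.X.O → E} {q : T.Pow κ} {k : κ}
    (h : DifferentiableAt ℂ (fun z => f (T.X.D.sec (q.p k) z)) (T.X.D.π (q.p k))) :
    DifferentiableAt ℂ (fun z => f (((T.pow κ).sec q z).p k)) ((T.pow κ).π q) := by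
  rw [← T.cs_pow q k] at h
  exact (h.comp _ (ana_cs k _).differentiableAt).congr_of_eventuallyEq
    ((T.pow_sec_p q k).mono fun z e => congrArg f e)

theorem pow_hol_b [NormedSpace ℂ E] {f : Pt B.O → E} (h : B.D.Hol f) :
    (T.pow κ).Hol fun q => f q.b := fun _ => T.pow_diff_b (h _)

theorem pow_hol_p [NormedSpace ℂ E] {f : Pt T.X.O → E} (h : T.X.D.Hol f) (k : κ) :
    (T.pow κ).Hol fun q => f (q.p k) := fun _ => T.pow_diff_p (h _)

theorem pow_sm_b [NormedSpace ℝ E] {f : Pt B.O → E} (h : B.D.Sm f) :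
    (T.pow κ).Sm fun q => f q.b := fun q => by
  have h1 := h q.b
  rw [← T.cb_pow q] at h1
  exact (h1.comp _ ((ana_cb _).contDiffAt.restrict_scalars ℝ)).congr_of_eventuallyEq
    ((T.pow_sec_b q).mono fun z e => congrArg f e)

theorem pow_sm_p [NormedSpace ℝ E] {f : Pt T.X.O → E} (h : T.X.D.Sm f) (k : κ) :
    (T.pow κ).Sm fun q => f (q.p k) := fun q => by
  have h1 := h (q.p k)
  rw [← T.cs_pow q k] at h1
  exact (h1.comp _ ((ana_cs k _).contDiffAt.restrict_scalars ℝ)).congr_of_eventuallyEq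
    ((T.pow_sec_p q k).mono fun z e => congrArg f e)

theorem pow_psh_b {φ : Pt B.O → ℝ} (h : B.D.Psh φ) : (T.pow κ).Psh fun q => φ q.b :=
  ⟨T.pow_sm_b h.1, fun q ξ => by
    have h1 := h.1.two q.b
    have h2 := h.2 q.b
    unfold RD.levi at h2 ⊢
    rw [← T.cb_pow q] at h1 h2
    rw [F.levi_congr ((T.pow_sec_b q).mono fun z e => congrArg φ e),
      F.levi_comp_holo h1 (ana_cb _)]
    exact h2 _⟩

theorem pow_psh_p {φ : Pt T.X.O → ℝ} (h : T.X.D.Psh φ) (k : κ) :
    (T.pow κ).Psh fun q => φ (q.p k) :=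
  ⟨T.pow_sm_p h.1 k, fun q ξ => by
    have h1 := h.1.two (q.p k)
    have h2 := h.2 (q.p k)
    unfold RD.levi at h2 ⊢
    rw [← T.cs_pow q k] at h1 h2
    rw [F.levi_congr ((T.pow_sec_p q k).mono fun z e => congrArg φ e),
      F.levi_comp_holo h1 (ana_cs k _)]
    exact h2 _⟩

theorem pow_exh {s : Pt B.O → ℝ} {t : Pt T.X.O → ℝ} (hs : B.D.Exh s) (ht : T.X.D.Exh t) :
    (T.pow κ).Exh fun q => s q.b + ∑ k, t (q.p k) := by
  have h1 := T.pow_psh_b (κ := κ) hs.1
  have h2 := fun k : κ => T.pow_psh_p ht.1 k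
  have h3 := RD.sm_sum Finset.univ fun k _ => (h2 k).1
  refine ⟨⟨h1.1.add h3, fun q ξ => ?_⟩, fun c => ?_⟩
  · rw [RD.levi_add h1.1 h3, RD.levi_sum _ fun k _ => (h2 k).1]
    exact add_nonneg (h1.2 q ξ) (Finset.sum_nonneg fun k _ => (h2 k).2 q ξ)
  obtain ⟨a, ha⟩ := hs.bdd
  obtain ⟨b, hb⟩ := ht.bdd
  refine (isClosed_pow.isClosedEmbedding_subtypeVal.isCompact_preimage
    ((hs.2 (c - ∑ _k : κ, b)).prod (isCompact_univ_pi fun _ : κ =>
      ht.2 (c - a + b - ∑ _k : κ, b)))).of_isClosed_subset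
    (isClosed_le (h1.1.add h3).cont continuous_const)
    fun (q : T.Pow κ) hq => ⟨?_, fun k _ => ?_⟩
  · have := Finset.sum_le_sum fun k (_ : k ∈ Finset.univ) => hb (q.p k)
    have hq : s q.b + ∑ k, t (q.p k) ≤ c := hq
    show s q.b ≤ _
    linarith
  · have := Finset.single_le_sum (f := fun k => t (q.p k) - b) (fun k _ => sub_nonneg.2 (hb _))
      (Finset.mem_univ k)
    rw [Finset.sum_sub_distrib] at this
    have hq : s q.b + ∑ k, t (q.p k) ≤ c := hq
    have := ha q.b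
    show t (q.p k) ≤ _
    linarith

theorem fibs_π (b : Pt B.O) (x : κ → T.Fib b) (k : κ) (i : ν) :
    (T.fibs κ b).π x (k, i) = (T.fib b).π (x k) i := ((T.fib b).exists_pi κ).choose_spec.1 x k i

theorem fibs_μ (b : Pt B.O) : (T.fibs κ b).μ = Measure.pi fun _ : κ => (T.fib b).μ :=
  ((T.fib b).exists_pi κ).choose_spec.2.1

theorem pow_mk (b : Pt B.O) (x : κ → T.Fib b) :
    (T.pow κ).π (Pow.mk b x) = Sum.elim (B.D.π b) ((T.fibs κ b).π x) := by
  funext i
  rcases i with i | ⟨k, i⟩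
  · exact T.pow_inl _ i
  · rw [pow_inr, Sum.elim_inr, fibs_π, T.fib_π]; rfl

theorem fibs_diff [NormedSpace ℂ E] {U : T.Pow κ → E} {b : Pt B.O} {x : κ → T.Fib b}
    (h : DifferentiableAt ℂ (fun z => U ((T.pow κ).sec (Pow.mk b x) z)) ((T.pow κ).π (Pow.mk b x))) :
    DifferentiableAt ℂ (fun z => U (Pow.mk b ((T.fibs κ b).sec x z))) ((T.fibs κ b).π x) := by
  have hd : DifferentiableAt ℂ (fun z : κ × ν → ℂ => (Sum.elim (B.D.π b) z : δ ⊕ κ × ν → ℂ))
      ((T.fibs κ b).π x) := differentiableAt_pi.2 fun i => by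
    rcases i with i | i
    · exact differentiableAt_const _
    · exact differentiableAt_apply i _
  rw [pow_mk] at h
  refine (h.comp _ hd).congr_of_eventuallyEq ?_
  filter_upwards [(((Pow.cont_mk b).tendsto x).comp ((T.fibs κ b).tendsto_sec x)).eventually
    (((T.pow κ).ch (Pow.mk b x)).open_source.mem_nhds ((T.pow κ).mem_src _)),
    (T.fibs κ b).π_sec_ev x] with z h1 h2
  refine congrArg U ((RD.sec_π h1).symm.trans (congrArg _ ?_))
  rw [comp_apply, pow_mk, h2]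

/-- one slot moves, the others are fixed -/
theorem slot_diff [NormedSpace ℂ E] {U : T.Pow κ → E} {b : Pt B.O} {x : κ → T.Fib b} {k : κ}
    {y : T.Fib b} (h : DifferentiableAt ℂ
      (fun z => U ((T.pow κ).sec (Pow.mk b (update x k y)) z)) ((T.pow κ).π (Pow.mk b (update x k y)))) :
    DifferentiableAt ℂ (fun z => U (Pow.mk b (update x k ((T.fib b).sec y z)))) ((T.fib b).π y) := by
  let l : (ν → ℂ) → δ ⊕ κ × ν → ℂ := fun z =>
    Sum.elim (B.D.π b) fun j => update (fun k => (T.fib b).π (x k)) k z j.1 j.2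
  have hl : ∀ y', (T.pow κ).π (Pow.mk b (update x k y')) = l ((T.fib b).π y') := fun y' => by
    rw [pow_mk]
    refine congrArg _ (funext fun ⟨k', j⟩ => ?_)
    rw [fibs_π, apply_update (fun _ y => (T.fib b).π y)]
  have hd : DifferentiableAt ℂ l ((T.fib b).π y) := differentiableAt_pi.2 fun i => by
    rcases i with i | ⟨k', j⟩
    · exact differentiableAt_const _
    · by_cases e : k' = k
      · subst e
        simp only [l, Sum.elim_inr, update_self]
        exact differentiableAt_apply j _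
      · simp only [l, Sum.elim_inr, update_of_ne e]
        exact differentiableAt_const _
  rw [hl] at h
  refine (h.comp _ hd).congr_of_eventuallyEq ?_
  have hc : Continuous fun y' => Pow.mk b (update x k y') :=
    (Pow.cont_mk b).comp (continuous_const.update k continuous_id)
  filter_upwards [((hc.tendsto y).comp ((T.fib b).tendsto_sec y)).eventually
    (((T.pow κ).ch _).open_source.mem_nhds ((T.pow κ).mem_src _)), (T.fib b).π_sec_ev y] with z h1 h2
  refine congrArg U ((RD.sec_π h1).symm.trans (congrArg _ ?_))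
  rw [comp_apply, hl, h2]

theorem slice {U : T.Pow κ → ℂ} (h : (T.pow κ).Hol U) (b : Pt B.O) (x : κ → T.Fib b) (k : κ) :
    (T.fib b).Hol fun y => U (Pow.mk b (update x k y)) := fun _ => T.slot_diff (h _)

theorem pow_fubini {G : T.Pow κ → ENNReal} (hG : Measurable G) :
    (Measurable fun b => ∫⁻ x, G (Pow.mk b x) ∂(Measure.pi fun _ : κ => (T.fib b).μ)) ∧
      ∫⁻ q, G q ∂(T.pow κ).μ =
        ∫⁻ b, ∫⁻ x, G (Pow.mk b x) ∂(Measure.pi fun _ : κ => (T.fib b).μ) ∂B.D.μ := by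
  let e : ∀ b, (κ → T.Fib b) ≃ₜ {q : T.Pow κ // q.b = b} := fun b =>
    { toFun := fun x => ⟨Pow.mk b x, rfl⟩
      invFun := fun q k => ⟨q.1.p k, (q.1.res_p k).trans q.2⟩
      left_inv := fun _ => rfl
      right_inv := fun q => Subtype.ext (Pow.ext q.2.symm fun _ => rfl)
      continuous_toFun := (Pow.cont_mk b).subtype_mk _
      continuous_invFun := continuous_pi fun k =>
        ((Pow.cont_p k).comp continuous_subtype_val).subtype_mk _ }
  choose Df h1 h2 using fun b => (T.fibs κ b).exists_tr (e b)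
  have : ∀ b, SigmaCompactSpace {q : T.Pow κ // q.b = b} := fun b =>
    (isClosed_eq Pow.cont_b continuous_const).sigmaCompactSpace
  have key := RD.fubini (T.pow κ) B.D Pow.cont_b T.pow_inl Df (fun b q ⟨k, i⟩ => by
    rw [h1, fibs_π, T.fib_π, pow_inr]; rfl) hG
  have h3 : ∀ b, ∫⁻ q, G q.1 ∂(Df b).μ =
      ∫⁻ x, G (Pow.mk b x) ∂(Measure.pi fun _ : κ => (T.fib b).μ) := fun b => by
    rw [h2, ← fibs_μ]
    exact lintegral_map (hG.comp measurable_subtype_coe) (e b).continuous.measurable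
  simpa only [h3] using key

/-- the fibre power as a Riemann domain -/
theorem exists_pow (T : Rel B ν M) (κ : Type) [Fintype κ] [DecidableEq κ] :
    ∃ D : RD (δ ⊕ κ × ν) (T.Pow κ), (∀ q i, D.π q (Sum.inl i) = B.D.π q.1.1 i) ∧
      (∀ q k i, D.π q (Sum.inr (k, i)) = q.1.2 k (T.X.z (Sum.inr i))) ∧
      (∀ a : B.O, D.Hol fun q => q.1.1 a) ∧ (∀ k (φ : T.X.O), D.Hol fun q => q.1.2 k φ) ∧
      ∀ G : Pt B.O × (κ → Pt T.X.O) → ENNReal, Measurable G → ∫⁻ q, G q.1 ∂D.μ =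
        ∫⁻ b, ∫⁻ p : κ → T.Fib b, G (b, fun k => (p k).1) ∂(Measure.pi fun _ => (T.fib b).μ) ∂B.D.μ :=
  ⟨T.pow κ, T.pow_inl, T.pow_inr, fun a => T.pow_hol_b (B.hol a),
    fun k φ => T.pow_hol_p (T.X.hol φ) k,
    fun _ hG => (T.pow_fubini (hG.comp measurable_subtype_coe)).2⟩

end Rel

end Pool.Agent.Lib.MP_5c318e_ag
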