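import Pool.Agent.Lib.MP_5c318e_ag.Fp.Pw
import Pool.Agent.Lib.MP_5c318e_ag.P.Ten

/-! The coefficients of a holomorphic function on a fibre power that is a tensor on almost every
fibre are holomorphic on the base. -/

set_option autoImplicit false
set_option linter.unusedSectionVars false

namespace Pool.Agent.Lib.MP_5c318e_ag

open MeasureTheory Set Filter Topology Function Matrix

theorem Fp.exists_pts {r S : Type} [Fintype r] [DecidableEq r] {φ : r → S → ℂ}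
    (h : ∀ a : r → ℂ, (∀ p, ∑ i, a i * φ i p = 0) → a = 0) :
    ∃ x : r → S, (Matrix.of fun j i => φ i (x j)).det ≠ 0 := by
  have h0 : LinearIndependent ℂ φ := Fintype.linearIndependent_iff.2 fun a ha =>
    congrFun (h a fun p => by simpa using congrFun ha p)
  have hsp := span_flip_eq_top_iff_linearIndependent.2 h0
  obtain ⟨κ, a, -, hsp', hli⟩ := exists_linearIndependent' ℂ (flip φ)
  rw [hsp] at hsp'
  have e := (Pi.basisFun ℂ r).indexEquiv (Module.Basis.mk hli (by rw [hsp']))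
  have hli' : LinearIndependent ℂ (Matrix.of fun j i => φ i (a (e j))).row :=
    hli.comp e e.injective
  exact ⟨fun i => a (e i), ((Matrix.isUnit_iff_isUnit_det _).1
    (Matrix.linearIndependent_rows_iff_isUnit.1 hli')).ne_zero⟩

variable {δ ν K M : Type} [Fintype δ] [DecidableEq δ] [Fintype ν] [DecidableEq ν]
  [Field K] [Algebra ℂ K] [Field M] [Algebra ℂ M] [Algebra K M] [IsScalarTower ℂ K M] {B : Cht δ K}
  {κ : Type} [Fintype κ] [DecidableEq κ]

theorem Fp.ana_elim {α β : Type} [Fintype α] [Fintype β] (c : β → ℂ) (y : α → ℂ) :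
    AnalyticAt ℂ (fun y : α → ℂ => (Sum.elim y c : α ⊕ β → ℂ)) y :=
  AnalyticAt.pi fun i => by
    rcases i with i | i
    · exact (ContinuousLinearMap.proj (R := ℂ) (φ := fun _ : α => ℂ) i).analyticAt y
    · exact analyticAt_const

namespace Rel

variable (T : Rel B ν M)

/-- the base point moves, the fibre coordinates are fixed -/
noncomputable def mv (q : T.Pow κ) (y : δ → ℂ) : T.Pow κ :=
  (T.pow κ).sec q (Sum.elim y fun j => (T.pow κ).π q (Sum.inr j))

/-- the same in the total space -/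
noncomputable def mvX (x : Pt T.X.O) (y : δ → ℂ) : Pt T.X.O :=
  T.X.D.sec x (Sum.elim y fun j => T.X.D.π x (Sum.inr j))

theorem elim_pow (q : T.Pow κ) :
    (Sum.elim (B.D.π q.b) fun j => (T.pow κ).π q (Sum.inr j)) = (T.pow κ).π q := by
  funext i
  rcases i with i | i
  · exact (T.pow_inl q i).symm
  · rfl

theorem elim_X (x : Pt T.X.O) :
    (Sum.elim (B.D.π (x.res T.inc)) fun j => T.X.D.π x (Sum.inr j)) = T.X.D.π x := by
  funext i
  rcases i with i | i
  · exact (T.π_inl x i).symm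
  · rfl

theorem tend_elim (q : T.Pow κ) : Tendsto (fun y : δ → ℂ =>
    (Sum.elim y fun j => (T.pow κ).π q (Sum.inr j) : δ ⊕ κ × ν → ℂ)) (𝓝 (B.D.π q.b))
    (𝓝 ((T.pow κ).π q)) := by
  have := (Fp.ana_elim (fun j => (T.pow κ).π q (Sum.inr j)) (B.D.π q.b)).continuousAt.tendsto
  rwa [elim_pow] at this

theorem mv_tend (q : T.Pow κ) : Tendsto (T.mv q) (𝓝 (B.D.π q.b)) (𝓝 q) :=
  ((T.pow κ).tendsto_sec q).comp (T.tend_elim q)

theorem mv_b (q : T.Pow κ) : ∀ᶠ y in 𝓝 (B.D.π q.b), (T.mv q y).b = B.D.sec q.b y :=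
  (T.tend_elim q).eventually (T.pow_sec_b q)

theorem mv_p (q : T.Pow κ) : ∀ᶠ y in 𝓝 (B.D.π q.b), ∀ k, (T.mv q y).p k = T.mvX (q.p k) y :=
  eventually_all.2 fun k => ((T.tend_elim q).eventually (T.pow_sec_p q k)).mono fun y h =>
    h.trans (congrArg _ (funext fun i => by
      rcases i with i | i
      · rfl
      · exact congrFun (T.cs_pow q k) (Sum.inr i)))

theorem mv_ana {U : T.Pow κ → ℂ} (hU : (T.pow κ).Hol U) (q : T.Pow κ) :
    AnalyticAt ℂ (fun y => U (T.mv q y)) (B.D.π q.b) :=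
  (RD.WP.ana hU q).comp_of_eq (Fp.ana_elim _ _) (T.elim_pow q)

theorem mvX_ana (φ : T.X.O) (x : Pt T.X.O) :
    AnalyticAt ℂ (fun y => T.mvX x y φ) (B.D.π (x.res T.inc)) :=
  (RD.WP.ana (T.X.hol φ) x).comp_of_eq (Fp.ana_elim _ _) (T.elim_X x)

theorem mvX_self (x : Pt T.X.O) : T.mvX x (B.D.π (x.res T.inc)) = x := by
  rw [mvX, elim_X, RD.sec_self]

variable {r : Type} [Fintype r] [DecidableEq r] {τ : r → T.X.O} {U : T.Pow κ → ℂ}

theorem coef_loc (hU : (T.pow κ).Hol U) (b0 : Pt B.O)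
    (hi : ∀ a : r → ℂ, (∀ p : T.Fib b0, ∑ i, a i * p.1 (τ i) = 0) → a = 0) :
    ∃ A : (δ → ℂ) → (κ → r) → ℂ, (∀ I, AnalyticAt ℂ (fun y => A y I) (B.D.π b0)) ∧
      ∀ᶠ b in 𝓝 b0, ∀ a : (κ → r) → ℂ,
        (∀ q : T.Pow κ, q.b = b → U q = ∑ I, a I * ∏ k, q.p k (τ (I k))) → a = A (B.D.π b) := by
  obtain ⟨x, hx⟩ := Fp.exists_pts (φ := fun i (p : T.Fib b0) => p.1 (τ i)) hi
  let Mx : (δ → ℂ) → Matrix r r ℂ := fun y => Matrix.of fun j i => T.mvX (x j).1 y (τ i)
  have a1 : Fl.AnM Mx (B.D.π b0) := fun j i => by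
    have := T.mvX_ana (τ i) (x j).1
    rwa [(x j).2] at this
  have a2 : (Mx (B.D.π b0)).det ≠ 0 := by
    convert hx using 4 with j i
    have := T.mvX_self (x j).1
    rw [(x j).2] at this
    rw [this]
  refine ⟨fun y => Fl.tp κ (Mx y)⁻¹ *ᵥ fun J => U (T.mv (Pow.mk b0 fun k => x (J k)) y),
    fun I => ?_, ?_⟩
  · simp only [mulVec, dotProduct, Fl.tp_apply]
    exact Finset.analyticAt_fun_sum _ fun J _ => (Finset.analyticAt_fun_prod _ fun k _ =>
      a1.inv a2 _ _).fun_mul (T.mv_ana hU (Pow.mk b0 fun k => x (J k)))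
  have t := B.D.cont_π.tendsto b0
  filter_upwards [t.eventually (a1.det_ev a2),
    t.eventually (eventually_all.2 fun J : κ → r => T.mv_b (Pow.mk b0 fun k => x (J k))),
    t.eventually (eventually_all.2 fun J : κ → r => T.mv_p (Pow.mk b0 fun k => x (J k))),
    (B.D.ch b0).open_source.mem_nhds (B.D.mem_src b0)] with b h1 h2 h3 h4 a ha
  have : (fun J : κ → r => U (T.mv (Pow.mk b0 fun k => x (J k)) (B.D.π b))) =
      Fl.tp κ (Mx (B.D.π b)) *ᵥ a := by
    funext J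
    rw [ha _ ((h2 J).trans (RD.sec_π h4))]
    simp only [mulVec, dotProduct, Fl.tp_apply, h3 J]
    exact Finset.sum_congr rfl fun I _ => mul_comm _ _
  rw [this, mulVec_mulVec, ← Fl.tp_mul, nonsing_inv_mul _ h1.isUnit, Fl.tp_one, one_mulVec]

theorem coef_hol (hU : (T.pow κ).Hol U)
    (hi : ∀ (b : Pt B.O) (a : r → ℂ), (∀ p : T.Fib b, ∑ i, a i * p.1 (τ i) = 0) → a = 0)
    (hae : ∀ᵐ b ∂B.D.μ, ∃ a : (κ → r) → ℂ, ∀ x : κ → T.Fib b,
      U (Pow.mk b x) = ∑ I, a I * ∏ k, (x k).1 (τ (I k))) :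
    ∃ a : Pt B.O → (κ → r) → ℂ, (∀ I, B.D.Hol fun b => a b I) ∧ ∀ (b : Pt B.O) (x : κ → T.Fib b),
      U (Pow.mk b x) = ∑ I, a b I * ∏ k, (x k).1 (τ (I k)) := by
  have := B.D.openPos
  have hd := Measure.dense_of_ae hae
  have key : ∀ q : T.Pow κ, ∀ A : (δ → ℂ) → (κ → r) → ℂ,
      (∀ I, AnalyticAt ℂ (fun y => A y I) (B.D.π q.b)) → (∀ᶠ b in 𝓝 q.b, ∀ a : (κ → r) → ℂ,
        (∀ q : T.Pow κ, q.b = b → U q = ∑ I, a I * ∏ k, q.p k (τ (I k))) → a = A (B.D.π b)) →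
      U q = ∑ I, A (B.D.π q.b) I * ∏ k, q.p k (τ (I k)) := fun q A h1 h2 => by
    have t := B.D.cont_π.tendsto q.b
    have t1 := (T.mv_tend q).comp t
    refine tendsto_nhds_unique_of_frequently_eq ((hU.cont.tendsto q).comp t1)
      (tendsto_finsetSum _ fun I _ => ((h1 I).continuousAt.tendsto.comp t).mul
        (tendsto_finsetProd _ fun k _ => (((Pt.continuous_apply (τ (I k))).comp
          (Pow.cont_p k)).tendsto q).comp t1)) ?_
    refine ((mem_closure_iff_frequently.1 (hd q.b)).and_eventually (h2.and ((t.eventually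
      (T.mv_b q)).and ((B.D.ch q.b).open_source.mem_nhds (B.D.mem_src _))))).mono ?_
    rintro b ⟨⟨a, ha⟩, h3, h4, h5⟩
    have h6 : ∀ q : T.Pow κ, q.b = b → U q = ∑ I, a I * ∏ k, q.p k (τ (I k)) := by
      rintro q rfl
      exact ha q.f
    simp only [Function.comp_apply]
    rw [← h3 a h6]
    exact h6 _ (h4.trans (RD.sec_π h5))
  choose A h1 h2 using fun b => T.coef_loc hU b (hi b)
  refine ⟨fun b => A b (B.D.π b), fun I b0 => ?_, fun b x => key _ _ (h1 b) (h2 b)⟩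
  refine (h1 b0 I).differentiableAt.congr_of_eventuallyEq ?_
  filter_upwards [(B.D.tendsto_sec b0).eventually (h2 b0), B.D.π_sec_ev b0] with y h3 h4
  rw [h3 (A _ (B.D.π (B.D.sec b0 y))) fun q hq => hq ▸ key q _ (h1 _) (h2 _), h4]

end Rel

end Pool.Agent.Lib.MP_5c318e_ag
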