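import Pool.Agent.Lib.MP_5c318e_ag.P.Slot
import Pool.Agent.Lib.MP_5c318e_ag.N.Det

/-! The coefficients of a tensor are bounded by its weighted `L²` norm. -/

set_option autoImplicit false

namespace Pool.Agent.Lib.MP_5c318e_ag

open MeasureTheory Set Matrix
open scoped ENNReal

theorem Fp.coef_le {Ω r κ : Type} [MeasurableSpace Ω] [Fintype r] [DecidableEq r] [Fintype κ]
    [DecidableEq κ] (ν : Measure Ω) [SigmaFinite ν] {f : Ω → r → ℂ} (hf : Measurable f) {m : ℕ}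
    (hm : 0 < m) {E : ℝ≥0∞} (E0 : 1 ≤ E) (E1 : E ≠ ⊤) (hup : N.nB ν f (2 / m) ≤ E)
    (hlo : ∀ a : r → ℂ, ‖a‖ₑ ^ (2 / m : ℝ) ≤ E * N.nN ν f (2 / m) a) (a : (κ → r) → ℂ) (I : κ → r) :
    ‖a I‖ₑ ^ 2 ≤ E ^ (2 * Fintype.card κ * m) *
      ∫⁻ x, ‖∑ I, a I * ∏ k, f (x k) (I k)‖ₑ ^ 2 *
        ∏ k, ‖f (x k)‖ₑ ^ (-(2 * (m - 1) / m) : ℝ) ∂(Measure.pi fun _ : κ => ν) := by
  have m0 : (0 : ℝ) < m := by exact_mod_cast hm
  have m1 : (1 : ℝ) ≤ m := by exact_mod_cast hm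
  have p0 : (0 : ℝ) < 2 / m := by positivity
  have q0 : (0 : ℝ) ≤ (m - 1) / m := div_nonneg (sub_nonneg.2 m1) m0.le
  have E2 : E ≠ 0 := (zero_lt_one.trans_le E0).ne'
  have hs : ∀ i, Measurable fun x => f x i := fun i => (measurable_pi_apply i).comp hf
  have h1 := Fl.slot_low ν hs (p := 2 / m) (c := E⁻¹) (fun a i => by
    rw [ENNReal.inv_mul_le_iff E2 E1]
    exact (ENNReal.rpow_le_rpow (N.enorm_le_pi_enorm a i) p0.le).trans (hlo a)) a I
  rw [← ENNReal.inv_pow, ENNReal.inv_mul_le_iff (pow_ne_zero _ E2) (ENNReal.pow_ne_top E1)] at h1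
  set J := ∫⁻ x, ‖∑ I, a I * ∏ k, f (x k) (I k)‖ₑ ^ 2 *
    ∏ k, ‖f (x k)‖ₑ ^ (-(2 * (m - 1) / m) : ℝ) ∂(Measure.pi fun _ : κ => ν)
  have mU : Measurable fun x : κ → Ω => ∑ I, a I * ∏ k, f (x k) (I k) :=
    Finset.measurable_sum _ fun I _ => (Finset.measurable_prod _ fun k _ =>
      (hs _).comp (measurable_pi_apply k)).const_mul _
  have h2 : ∫⁻ x, ‖∑ I, a I * ∏ k, f (x k) (I k)‖ₑ ^ (2 / m : ℝ) ∂(Measure.pi fun _ : κ => ν) ≤
      J ^ (1 / m : ℝ) * E ^ Fintype.card κ := by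
    refine le_trans (lintegral_mono fun x => ?_) ((ENNReal.lintegral_mul_norm_pow_le
      ((mU.enorm.pow_const 2).mul (N.measurable_prod_apply fun _ =>
        hf.enorm.pow_const (-(2 * (m - 1) / m) : ℝ))).aemeasurable
      (N.measurable_prod_apply fun _ : κ => hf.enorm.pow_const (2 / m : ℝ)).aemeasurable
      (p := 1 / m) (q := (m - 1) / m) (by positivity) q0 (by field_simp; ring)).trans
      (mul_le_mul' le_rfl ?_))
    · by_cases h : ∃ k, f (x k) = 0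
      · obtain ⟨k, hk⟩ := h
        rw [Finset.sum_eq_zero fun I _ => by
          rw [Finset.prod_eq_zero (Finset.mem_univ k) (by rw [hk]; rfl), mul_zero]]
        simp [hm]
      push Not at h
      refine le_of_eq ?_
      rw [Pi.mul_apply, ENNReal.mul_rpow_of_nonneg _ _ (by positivity),
        ← ENNReal.prod_rpow_of_nonneg (by positivity),
        ← ENNReal.prod_rpow_of_nonneg q0, mul_assoc, ← Finset.prod_mul_distrib,
        Finset.prod_eq_one fun k _ => ?_, mul_one, ← ENNReal.rpow_natCast, ← ENNReal.rpow_mul]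
      · congr 1
        push_cast
        ring
      · rw [← ENNReal.rpow_mul, ← ENNReal.rpow_mul, ← ENNReal.rpow_add _ _ (by simpa using h k)
          enorm_ne_top, show (-(2 * (m - 1) / m) * (1 / m) + 2 / m * ((m - 1) / m) : ℝ) = 0 by ring,
          ENNReal.rpow_zero]
    · rw [N.lintegral_pi_prod (fun _ y => ‖f y‖ₑ ^ (2 / m : ℝ)) fun _ => hf.enorm.pow_const _,
        Finset.prod_const, Finset.card_univ]
      refine (ENNReal.rpow_le_rpow (pow_le_pow_left' hup _) q0).trans ?_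
      exact (ENNReal.rpow_le_rpow_of_exponent_le (one_le_pow₀ E0)
        ((div_le_one m0).2 (by linarith))).trans_eq (ENNReal.rpow_one _)
  have h3 := pow_le_pow_left' (h1.trans (mul_le_mul' le_rfl h2)) m
  rw [← ENNReal.rpow_mul_natCast, div_mul_cancel₀ _ m0.ne', mul_pow, mul_pow,
    ← ENNReal.rpow_mul_natCast, div_mul_cancel₀ _ m0.ne', ENNReal.rpow_one, ENNReal.rpow_two] at h3
  refine h3.trans_eq ?_
  ring

end Pool.Agent.Lib.MP_5c318e_ag
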