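import Pool.Agent.Lib.MP_5c318e_ag.S.CFub
import Pool.Agent.Lib.MP_5c318e_ag.S.ODefs

/-! Saturation of a family of functions, and the fibre powers of a family as Riemann domains. -/

set_option autoImplicit false
set_option linter.unusedSectionVars false

namespace Pool.Agent.Lib.MP_5c318e_ag

open MeasureTheory Set Filter Topology Function

noncomputable section

section sat

variable {ν r S : Type} [Fintype ν] [Fintype r] [TopologicalSpace S] [MeasurableSpace S]

/-- holomorphic functions of finite norm are combinations of the `τ i` -/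
def RD.Sat (D : RD ν S) (τ : r → S → ℂ) (c : ℝ) : Prop :=
  ∀ (g : MvPolynomial ν ℂ) (u : S → ℂ), g ≠ 0 →
    (∀ p, MvPolynomial.eval (D.π p) g ≠ 0 →
      DifferentiableAt ℂ (fun z => u (D.sec p z)) (D.π p)) →
    ∫⁻ p, ENNReal.ofReal (‖u p‖ ^ 2) * ENNReal.ofReal (∑ i, ‖τ i p‖ ^ 2) ^ (-c) ∂D.μ < ⊤ →
    ∃ a : r → ℂ, ∀ p, MvPolynomial.eval (D.π p) g ≠ 0 → u p = ∑ i, a i * τ i p

/-- the `τ i` are independent on every nonempty open set -/
def Ind (τ : r → S → ℂ) : Prop :=
  ∀ U : Set S, IsOpen U → U.Nonempty → ∀ a : r → ℂ, (∀ p ∈ U, ∑ i, a i * τ i p = 0) → a = 0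

end sat

/-- a continuous map with local inverses is a local homeomorphism -/
theorem Fp.locHomeo {S E : Type} [TopologicalSpace S] [TopologicalSpace E] {f : S → E}
    (hf : Continuous f) (h : ∀ x, ∃ σ : E → S, (∀ᶠ z in 𝓝 (f x), ContinuousAt σ z ∧ f (σ z) = z) ∧
      ∀ᶠ y in 𝓝 x, σ (f y) = y) : IsLocalHomeomorph f := by
  refine IsLocalHomeomorph.mk _ fun x => ?_
  obtain ⟨σ, h1, h2⟩ := h x
  obtain ⟨V, v1, v2, v3⟩ := eventually_nhds_iff.1 h1
  obtain ⟨W, w1, w2, w3⟩ := eventually_nhds_iff.1 h2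
  have hc : ContinuousOn σ V := fun z hz => (v1 z hz).1.continuousWithinAt
  refine ⟨⟨⟨⟨f, σ, W ∩ f ⁻¹' V, V ∩ σ ⁻¹' W, ?_, ?_, ?_, ?_⟩, hf.continuousOn,
    hc.mono inter_subset_left⟩, w2.inter (v2.preimage hf), hc.isOpen_inter_preimage v2 w2⟩,
    ⟨w3, v3⟩, fun _ _ => rfl⟩
  · exact fun y hy => ⟨hy.2, by rw [mem_preimage, w1 y hy.1]; exact hy.1⟩
  · exact fun z hz => ⟨hz.2, by rw [mem_preimage, (v1 z hz.1).2]; exact hz.1⟩
  · exact fun y hy => w1 y hy.1
  · exact fun z hz => (v1 z hz.1).2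

variable {δ ν K M : Type} [Fintype δ] [DecidableEq δ] [Fintype ν] [DecidableEq ν]
  [Field K] [Algebra ℂ K] [Field M] [Algebra ℂ M] [Algebra K M] {B : Cht δ K}

namespace Rel

variable {T : Rel B ν M} {κ : Type}

/-- the base point -/
def Pow.b (q : T.Pow κ) : Pt B.O := q.1.1

/-- the point in the slot `k` -/
def Pow.p (q : T.Pow κ) (k : κ) : Pt T.X.O := q.1.2 k

/-- the point in the slot `k`, in its fibre -/
def Pow.f (q : T.Pow κ) (k : κ) : T.Fib q.b := ⟨q.p k, q.2 k⟩

/-- a point of the fibre power from points of one fibre -/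
def Pow.mk (b : Pt B.O) (x : κ → T.Fib b) : T.Pow κ := ⟨(b, fun k => (x k).1), fun k => (x k).2⟩

@[simp] theorem Pow.mk_b (b : Pt B.O) (x : κ → T.Fib b) : (Pow.mk b x).b = b := rfl

@[simp] theorem Pow.mk_p (b : Pt B.O) (x : κ → T.Fib b) (k : κ) : (Pow.mk b x).p k = (x k).1 := rfl

@[simp] theorem Pow.mk_f (q : T.Pow κ) : Pow.mk q.b q.f = q := rfl

theorem Pow.res_p (q : T.Pow κ) (k : κ) : (q.p k).res T.inc = q.b := q.2 k

theorem Pow.ext {q q' : T.Pow κ} (h : q.b = q'.b) (h' : ∀ k, q.p k = q'.p k) : q = q' :=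
  Subtype.ext (Prod.ext h (funext h'))

theorem Pow.cont_b : Continuous (Pow.b : T.Pow κ → Pt B.O) := continuous_subtype_val.fst

theorem Pow.cont_p (k : κ) : Continuous fun q : T.Pow κ => q.p k :=
  (continuous_apply k).comp continuous_subtype_val.snd

theorem Pow.cont_mk (b : Pt B.O) : Continuous (Pow.mk b : (κ → T.Fib b) → T.Pow κ) :=
  Continuous.subtype_mk (continuous_const.prodMk
    (continuous_pi fun k => continuous_subtype_val.comp (continuous_apply k))) _

theorem isClosed_pow :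
    IsClosed {q : Pt B.O × (κ → Pt T.X.O) | ∀ k, (q.2 k).res T.inc = q.1} := by
  rw [ofPred_forall]
  exact isClosed_iInter fun k => isClosed_eq
    ((Pt.continuous_res _).comp ((continuous_apply k).comp continuous_snd)) continuous_fst

instance (b : Pt B.O) : SecondCountableTopology (T.Fib b) :=
  TopologicalSpace.Subtype.secondCountableTopology {p : Pt T.X.O | p.res T.inc = b}

instance [Fintype κ] : SecondCountableTopology (T.Pow κ) :=
  TopologicalSpace.Subtype.secondCountableTopology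
    {q : Pt B.O × (κ → Pt T.X.O) | ∀ k, (q.2 k).res T.inc = q.1}

instance [Fintype κ] : SigmaCompactSpace (T.Pow κ) := isClosed_pow.sigmaCompactSpace

theorem π_inl (T : Rel B ν M) (p : Pt T.X.O) (i : δ) :
    T.X.D.π p (Sum.inl i) = B.D.π (p.res T.inc) i := by
  rw [T.X.π_eq, B.π_eq, T.zy]; rfl

/-- the coordinates of the base -/
def cb (z : δ ⊕ κ × ν → ℂ) : δ → ℂ := fun i => z (Sum.inl i)

/-- the coordinates of the slot `k` -/
def cs (k : κ) (z : δ ⊕ κ × ν → ℂ) : δ ⊕ ν → ℂ :=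
  Sum.elim (fun i => z (Sum.inl i)) fun j => z (Sum.inr (k, j))

theorem cont_cb : Continuous (cb : (δ ⊕ κ × ν → ℂ) → δ → ℂ) := by unfold cb; fun_prop

theorem cont_cs (k : κ) : Continuous (cs k : (δ ⊕ κ × ν → ℂ) → δ ⊕ ν → ℂ) :=
  continuous_pi fun i => by
    rcases i with i | i <;> exact continuous_apply _

/-- the coordinates of the fibre power -/
def powπ (q : T.Pow κ) : δ ⊕ κ × ν → ℂ :=
  Sum.elim (B.D.π q.b) fun kj => T.X.D.π (q.p kj.1) (Sum.inr kj.2)

theorem cb_powπ (q : T.Pow κ) : cb (powπ q) = B.D.π q.b := rfl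

theorem cs_powπ (q : T.Pow κ) (k : κ) : cs k (powπ q) = T.X.D.π (q.p k) := by
  funext i
  rcases i with i | i
  · rw [T.π_inl, q.res_p]; rfl
  · rfl

theorem cont_powπ : Continuous (powπ : T.Pow κ → δ ⊕ κ × ν → ℂ) :=
  continuous_pi fun i => by
    rcases i with i | i
    · exact (continuous_apply i).comp (B.D.cont_π.comp Pow.cont_b)
    · exact (continuous_apply (Sum.inr i.2)).comp (T.X.D.cont_π.comp (Pow.cont_p i.1))

theorem sec_res (T : Rel B ν M) (p : Pt T.X.O) : ∀ᶠ w in 𝓝 (T.X.D.π p),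
    (T.X.D.sec p w).res T.inc = B.D.sec (p.res T.inc) fun i => w (Sum.inl i) := by
  have h1 := ((Pt.continuous_res T.inc).tendsto p).comp (T.X.D.tendsto_sec p)
  filter_upwards [h1.eventually ((B.D.ch (p.res T.inc)).open_source.mem_nhds (B.D.mem_src _)),
    T.X.D.π_sec_ev p] with w h2 h3
  refine (RD.sec_π h2).symm.trans (congrArg _ (funext fun i => ?_))
  rw [comp_apply, ← T.π_inl, h3]

variable [Fintype κ]

theorem locHomeo_powπ : IsLocalHomeomorph (powπ : T.Pow κ → δ ⊕ κ × ν → ℂ) := by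
  classical
  refine Fp.locHomeo cont_powπ fun q => ?_
  let s : (δ ⊕ κ × ν → ℂ) → Pt B.O × (κ → Pt T.X.O) := fun z =>
    (B.D.sec q.b (cb z), fun k => T.X.D.sec (q.p k) (cs k z))
  have tb : Tendsto cb (𝓝 (powπ q)) (𝓝 (B.D.π q.b)) := cont_cb.tendsto _
  have ts : ∀ k, Tendsto (cs k) (𝓝 (powπ q)) (𝓝 (T.X.D.π (q.p k))) := fun k =>
    cs_powπ q k ▸ (cont_cs k).tendsto _
  have h1 : ∀ᶠ z in 𝓝 (powπ q), ∀ k, ((s z).2 k).res T.inc = (s z).1 :=
    eventually_all.2 fun k => ((ts k).eventually (T.sec_res (q.p k))).mono fun z hz => by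
      rw [q.res_p] at hz; exact hz
  refine ⟨fun z => if h : ∀ k, ((s z).2 k).res T.inc = (s z).1 then ⟨s z, h⟩ else q, ?_, ?_⟩
  · filter_upwards [h1.eventually_nhds, tb.eventually (RD.tgt_nhds (B.D.mem_tgt q.b)),
      eventually_all.2 fun k => (ts k).eventually (RD.tgt_nhds (T.X.D.mem_tgt (q.p k)))]
      with z z1 z2 z3
    refine ⟨?_, ?_⟩
    · rw [IsInducing.subtypeVal.continuousAt_iff]
      refine ContinuousAt.congr (f := s) (ContinuousAt.prodMk
        ((RD.sec_contAt z2).comp cont_cb.continuousAt) (continuousAt_pi.2 fun k =>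
          (RD.sec_contAt (z3 k)).comp (cont_cs k).continuousAt)) (z1.mono fun w hw => ?_)
      rw [comp_apply, dif_pos hw]
    · rw [dif_pos z1.self_of_nhds]
      funext i
      rcases i with i | i
      · exact congrFun (RD.π_sec z2) i
      · exact congrFun (RD.π_sec (z3 i.1)) (Sum.inr i.2)
  · filter_upwards [(cont_powπ.tendsto q).eventually h1,
      (Pow.cont_b.tendsto q).eventually ((B.D.ch q.b).open_source.mem_nhds (B.D.mem_src _)),
      eventually_all.2 fun k => ((Pow.cont_p k).tendsto q).eventually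
        ((T.X.D.ch (q.p k)).open_source.mem_nhds (T.X.D.mem_src _))] with y y1 y2 y3
    rw [dif_pos y1]
    refine Pow.ext (RD.sec_π y2) fun k => ?_
    show T.X.D.sec (q.p k) (cs k (powπ y)) = y.p k
    rw [cs_powπ, RD.sec_π (y3 k)]

variable (T κ)

/-- the fibre power as a Riemann domain -/
def pow : RD (δ ⊕ κ × ν) (T.Pow κ) := (RD.exists_of _ locHomeo_powπ).choose

theorem pow_π : (T.pow κ).π = powπ := (RD.exists_of _ locHomeo_powπ).choose_spec

/-- the power of one fibre as a Riemann domain -/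
def fibs [DecidableEq κ] (b : Pt B.O) : RD (κ × ν) (κ → T.Fib b) :=
  ((T.fib b).exists_pi κ).choose

end Rel

end

end Pool.Agent.Lib.MP_5c318e_ag
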