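import Pool.Agent.Lib.MP_5c318e_ag.Fp.PwDefs
import Pool.Agent.Lib.MP_5c318e_ag.S.SatPi

/-! Saturation on a power for functions that are holomorphic off a hypersurface. -/

set_option autoImplicit false
set_option linter.unusedSectionVars false

namespace Pool.Agent.Lib.MP_5c318e_ag

open MeasureTheory Set Filter Topology Function

namespace Fp

theorem tensor_fin {S r : Type} [Fintype r] (n : ℕ) :
    ∀ (t : Fin n → r → S → ℂ) {f : (Fin n → S) → ℂ},
      (∀ k p, ∃ a : r → ℂ, ∀ x, f (update p k x) = ∑ i, a i * t k i x) →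
      ∃ c : (Fin n → r) → ℂ, ∀ p, f p = ∑ I, c I * ∏ k, t k (I k) (p k) := by
  induction n with
  | zero =>
    exact fun _ {f} _ => ⟨fun _ => f default, fun p => by simp [Subsingleton.elim p default]⟩
  | succ n ih =>
    intro t f h
    let L : (r → ℂ) →ₗ[ℂ] S → ℂ := Fintype.linearCombination ℂ (t 0)
    have hL : ∀ a x, L a x = ∑ i, a i * t 0 i x := fun a x => by
      simp [L, Fintype.linearCombination_apply, Finset.sum_apply]
    obtain ⟨G, hG⟩ : ∃ G : (S → ℂ) →ₗ[ℂ] r → ℂ, ∀ a, L (G (L a)) = L a := by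
      obtain ⟨g, hg⟩ := L.rangeRestrict.exists_rightInverse_of_surjective L.range_rangeRestrict
      obtain ⟨G, hG⟩ := g.exists_extend
      exact ⟨G, fun a => by
        have h1 := LinearMap.congr_fun hG ⟨L a, a, rfl⟩
        have h2 := congrArg Subtype.val (LinearMap.congr_fun hg ⟨L a, a, rfl⟩)
        exact (congrArg L h1).trans h2⟩
    have key : ∀ i, ∃ c : (Fin n → r) → ℂ, ∀ q : Fin n → S,
        G (fun x => f (Fin.cons x q)) i = ∑ I, c I * ∏ k, t k.succ (I k) (q k) := fun i =>
      ih (fun k => t k.succ) fun k q => by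
        choose a ha using fun x => h k.succ (Fin.cons x q)
        refine ⟨fun l => G (fun x => a x l) i, fun y => ?_⟩
        have : (fun x => f (Fin.cons x (update q k y))) =
            ∑ l, t k.succ l y • fun x => a x l := by
          funext x
          rw [Fin.cons_update, ha]
          simp [Finset.sum_apply, mul_comm]
        rw [this, map_sum]
        simp [Finset.sum_apply, mul_comm]
    choose c hc using key
    refine ⟨fun I => c (I 0) (Fin.tail I), fun p => ?_⟩
    obtain ⟨a, ha⟩ := h 0 p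
    have e : (fun x => f (Fin.cons x (Fin.tail p))) = L a := funext fun x => by
      rw [hL, ← ha, ← Fin.update_cons_zero (p 0), Fin.cons_self_tail]
    have := congrFun (hG a) (p 0)
    rw [← e, hL] at this
    simp only [Fin.cons_self_tail] at this
    rw [← this, ← (Fin.consEquiv fun _ => r).sum_comp, Fintype.sum_prod_type]
    refine Finset.sum_congr rfl fun i _ => ?_
    rw [hc, Finset.sum_mul]
    refine Finset.sum_congr rfl fun I _ => ?_
    simp [Fin.consEquiv, Fin.prod_univ_succ, Fin.tail]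
    ring

/-- slotwise membership gives a tensor; the functions depend on the slot -/
theorem tensor {κ : Type} [Fintype κ] [DecidableEq κ] {S r : Type} [Fintype r]
    (t : κ → r → S → ℂ) {f : (κ → S) → ℂ}
    (h : ∀ k p, ∃ a : r → ℂ, ∀ x, f (update p k x) = ∑ i, a i * t k i x) :
    ∃ c : (κ → r) → ℂ, ∀ p, f p = ∑ I, c I * ∏ k, t k (I k) (p k) := by
  let e := Fintype.equivFin κ
  obtain ⟨c, hc⟩ := tensor_fin _ (fun k => t (e.symm k)) (f := fun q => f (q ∘ e)) fun k q => by
    obtain ⟨a, ha⟩ := h (e.symm k) (q ∘ e)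
    exact ⟨a, fun x => by rw [update_comp_equiv, ha]⟩
  refine ⟨fun I => c (I ∘ e.symm), fun p => ?_⟩
  have := hc (p ∘ e.symm)
  rw [comp_assoc, e.symm_comp_self, comp_id] at this
  rw [this, ← (e.symm.arrowCongr (Equiv.refl r)).sum_comp]
  refine Finset.sum_congr rfl fun I _ => ?_
  congr 1
  · congr 1
    funext k
    simp
  · rw [← e.symm.prod_comp]
    simp

/-- membership in the span on a set is tested by finite sums of point masses -/
theorem mem_of_dual {S r : Type} [Fintype r] (t : r → S → ℂ) (V : Set S) (f : S → ℂ)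
    (h : ∀ l : V →₀ ℂ, (∀ i, l.sum (fun x c => c * t i x) = 0) → l.sum (fun x c => c * f x) = 0) :
    ∃ a : r → ℂ, ∀ x ∈ V, f x = ∑ i, a i * t i x := by
  obtain ⟨a, ha⟩ := (Submodule.mem_span_range_iff_exists_fun ℂ).1 (mem_span_of_iInf_ker_le_ker
    (L := fun i => Finsupp.linearCombination ℂ fun x : V => t i x)
    (K := Finsupp.linearCombination ℂ fun x : V => f x) fun l hl => h l fun i =>
      (Submodule.mem_iInf _).1 hl i)
  exact ⟨a, fun x hx => by simpa using (LinearMap.congr_fun ha (Finsupp.single ⟨x, hx⟩ 1)).symm⟩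

/-- slotwise membership on an open set with dense slices gives a tensor -/
theorem tensor_on {κ S r : Type} [Fintype κ] [DecidableEq κ] [TopologicalSpace S] [Fintype r]
    {τ : r → S → ℂ} (hi : Ind τ) {U : Set (κ → S)} (hU : IsOpen U)
    (hd : ∀ p ∈ U, ∀ k, Dense {x | update p k x ∈ U}) {u : (κ → S) → ℂ}
    (h : ∀ k p, ∃ a : r → ℂ, ∀ x, update p k x ∈ U → u (update p k x) = ∑ i, a i * τ i x) :
    ∃ c : (κ → r) → ℂ, ∀ p ∈ U, u p = ∑ I, c I * ∏ k, τ (I k) (p k) := by
  classical
  rcases U.eq_empty_or_nonempty with rfl | ⟨p0, h0⟩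
  · exact ⟨0, fun _ hp => hp.elim⟩
  obtain ⟨O, hO, sO⟩ := isOpen_pi_iff'.1 hU p0 h0
  obtain ⟨c, hc⟩ := tensor (fun k i => (O k).indicator (τ i)) (f := (univ.pi O).indicator u)
    fun k p => by
      by_cases hp : ∀ j, j ≠ k → p j ∈ O j
      · obtain ⟨a, ha⟩ := h k p
        refine ⟨a, fun x => ?_⟩
        by_cases hx : x ∈ O k
        · have m : update p k x ∈ univ.pi O := fun j _ => by
            rcases eq_or_ne j k with rfl | e
            · rwa [update_self]
            · rw [update_of_ne e]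
              exact hp j e
          simp only [indicator_of_mem m, indicator_of_mem hx, ha x (sO m)]
        · rw [indicator_of_notMem fun m => hx (by simpa using m k trivial)]
          simp [hx]
      · refine ⟨0, fun x => ?_⟩
        rw [indicator_of_notMem fun m => hp fun j e => by simpa [e] using m j trivial]
        simp
  have key : ∀ s : Finset κ, ∀ p ∈ U, (∀ k, k ∉ s → p k ∈ O k) →
      u p = ∑ I, c I * ∏ k, τ (I k) (p k) := by
    intro s
    induction s using Finset.induction_on with
    | empty =>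
      intro p _ hp
      have := hc p
      have m : ∀ k, p k ∈ O k := fun k => hp k (by simp)
      simpa only [indicator_of_mem (show p ∈ univ.pi O from fun k _ => m k),
        indicator_of_mem (m _)] using this
    | insert k s _ ih =>
      intro p hp hs
      obtain ⟨a, ha⟩ := h k p
      let b : r → ℂ := fun i => ∑ I with I k = i, c I * ∏ j ∈ Finset.univ \ {k}, τ (I j) (p j)
      have hb : ∀ x, ∑ I, c I * ∏ j, τ (I j) (update p k x j) = ∑ i, b i * τ i x := fun x => by
        simp only [b, Finset.sum_mul]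
        rw [← Finset.sum_fiberwise Finset.univ fun I : κ → r => I k]
        refine Finset.sum_congr rfl fun i _ => Finset.sum_congr rfl fun I hI => ?_
        simp only [apply_update (fun j => τ (I j)), Finset.prod_update_of_mem (Finset.mem_univ k),
          (Finset.mem_filter.1 hI).2]
        ring
      have z := hi (O k ∩ {x | update p k x ∈ U})
        ((hO k).1.inter (hU.preimage (by fun_prop)))
        ((hd p hp k).inter_open_nonempty _ (hO k).1 ⟨_, (hO k).2⟩) (a - b) fun x hx => by
          simp only [Pi.sub_apply, sub_mul, Finset.sum_sub_distrib]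
          rw [← ha x hx.2, ← hb, sub_eq_zero]
          refine ih _ hx.2 fun j hj => ?_
          rcases eq_or_ne j k with rfl | e
          · rw [update_self]
            exact hx.1
          · rw [update_of_ne e]
            exact hs j (by simp [e, hj])
      have := ha (p k) (by rwa [update_eq_self])
      rwa [sub_eq_zero.1 z, ← hb, update_eq_self] at this
  exact ⟨c, fun p hp => key Finset.univ p hp fun k hk => absurd (Finset.mem_univ k) hk⟩

end Fp

variable {ν r κ S : Type} [Fintype ν] [DecidableEq ν] [Fintype r] [DecidableEq r] [Fintype κ]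
  [DecidableEq κ] [TopologicalSpace S] [MeasurableSpace S] [BorelSpace S] [T2Space S]
  [SigmaCompactSpace S] [SecondCountableTopology S] {D : RD ν S} {τ : r → S → ℂ}

/-- the restriction of a polynomial to one slot -/
theorem Fp.exists_slice (D' : RD (κ × ν) (κ → S)) (hπ : ∀ p k i, D'.π p (k, i) = D.π (p k) i)
    (g : MvPolynomial (κ × ν) ℂ) (p : κ → S) (k : κ) : ∃ h : MvPolynomial ν ℂ, ∀ x,
      MvPolynomial.eval (D.π x) h = MvPolynomial.eval (D'.π (update p k x)) g := by
  refine ⟨MvPolynomial.bind₁ (fun j : κ × ν => if j.1 = k then MvPolynomial.X j.2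
    else MvPolynomial.C (D.π (p j.1) j.2)) g, fun x => ?_⟩
  rw [← MvPolynomial.coe_aeval_eq_eval, ← MvPolynomial.coe_aeval_eq_eval]
  refine (MvPolynomial.aeval_bind₁ _ _ _).trans (congrArg (MvPolynomial.aeval · g) ?_)
  funext ⟨j, i⟩
  rw [hπ]
  rcases eq_or_ne j k with rfl | e
  · simp
  · simp [e]

/-- holomorphy along one slot -/
theorem Fp.diff_slice (D' : RD (κ × ν) (κ → S)) (hπ : ∀ p k i, D'.π p (k, i) = D.π (p k) i)
    {u : (κ → S) → ℂ} {p : κ → S} {k : κ} {x : S}
    (hu : DifferentiableAt ℂ (fun z => u (D'.sec (update p k x) z)) (D'.π (update p k x))) :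
    DifferentiableAt ℂ (fun z => u (update p k (D.sec x z))) (D.π x) := by
  let j : (ν → ℂ) → κ × ν → ℂ := fun z l => if l.1 = k then z l.2 else D.π (p l.1) l.2
  have hj : ∀ y, j (D.π y) = D'.π (update p k y) := fun y => funext fun ⟨l, i⟩ => by
    rw [hπ]
    rcases eq_or_ne l k with rfl | e
    · simp [j]
    · simp [j, e]
  have dj : DifferentiableAt ℂ j (D.π x) := differentiableAt_pi.2 fun l => by
    by_cases e : l.1 = k
    · simp only [j, e, if_true]
      fun_prop
    · simp only [j, e, if_false]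
      fun_prop
  rw [← hj] at hu
  refine (hu.comp _ dj).congr_of_eventuallyEq ?_
  have c : Continuous fun y => update p k y := by fun_prop
  filter_upwards [((c.tendsto x).comp (D.tendsto_sec x)).eventually
    ((D'.ch _).open_source.mem_nhds (D'.mem_src _)), D.π_sec_ev x] with z h1 h2
  rw [comp_apply, ← h2, hj, h2]
  exact congrArg u (RD.sec_π h1).symm

theorem RD.Sat.pi {c : ℝ} (hs : D.Sat τ c) (hc : 0 ≤ c) (hτ : ∀ i, Continuous (τ i)) (hi : Ind τ)
    (D' : RD (κ × ν) (κ → S)) (hπ : ∀ p k i, D'.π p (k, i) = D.π (p k) i)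
    {g : MvPolynomial (κ × ν) ℂ} (hg : g ≠ 0) {u : (κ → S) → ℂ}
    (hu : ∀ p, MvPolynomial.eval (D'.π p) g ≠ 0 →
      DifferentiableAt ℂ (fun z => u (D'.sec p z)) (D'.π p))
    (hint : ∫⁻ p, ENNReal.ofReal (‖u p‖ ^ 2) * ∏ k, ENNReal.ofReal (∑ i, ‖τ i (p k)‖ ^ 2) ^ (-c)
      ∂(Measure.pi fun _ : κ => D.μ) < ⊤) :
    ∃ a : (κ → r) → ℂ, ∀ p, MvPolynomial.eval (D'.π p) g ≠ 0 →
      u p = ∑ I, a I * ∏ k, τ (I k) (p k) := by
  classical
  have _ := hg
  have := D.openPos
  set U := {p | MvPolynomial.eval (D'.π p) g ≠ 0} with hU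
  have oU : IsOpen U := isOpen_ne_fun ((MvPolynomial.continuous_eval g).comp D'.cont_π)
    continuous_const
  have cu : ∀ p ∈ U, ContinuousAt u p := fun p hp =>
    ((hu p hp).continuousAt.comp D'.cont_π.continuousAt).congr
      (mem_of_superset ((D'.ch p).open_source.mem_nhds (D'.mem_src p)) fun y hy =>
        congrArg u (RD.sec_π hy))
  have mu : Measurable (U.piecewise u 0) := ContinuousOn.measurable_piecewise
    (fun p hp => (cu p hp).continuousWithinAt) continuousOn_const oU.measurableSet
  have sl : ∀ p k, ∃ h : MvPolynomial ν ℂ, ∀ x,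
      MvPolynomial.eval (D.π x) h ≠ 0 ↔ update p k x ∈ U := fun p k =>
    (Fp.exists_slice D' hπ g p k).imp fun h hh x => by rw [hh]; rfl
  have mω : Measurable fun x => ENNReal.ofReal (∑ i, ‖τ i x‖ ^ 2) ^ (-c) := by fun_prop
  refine Fp.tensor_on hi oU (fun p hp k => ?_) fun k p => ?_
  · obtain ⟨h, hh⟩ := sl p k
    have h0 : h ≠ 0 := fun e => (hh (p k)).2 (by rwa [update_eq_self]) (by simp [e])
    exact Measure.dense_of_ae ((D.null_poly h0).mono fun x hx => (hh x).1 hx)
  have ae : ∀ᵐ q ∂(Measure.pi fun _ : κ => D.μ), ∃ a : r → ℂ, ∀ x, update q k x ∈ U →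
      u (update q k x) = ∑ i, a i * τ i x := by
    filter_upwards [ae_slice_lt_top D.μ (F := fun p => ENNReal.ofReal (‖U.piecewise u 0 p‖ ^ 2) *
      ∏ k, ENNReal.ofReal (∑ i, ‖τ i (p k)‖ ^ 2) ^ (-c)) (by fun_prop)
      (lt_of_le_of_lt (lintegral_mono fun p => by
        by_cases hp : p ∈ U <;> simp [hp]) hint) k] with q h1
    obtain ⟨h, hh⟩ := sl q k
    by_cases h0 : h = 0
    · exact ⟨0, fun x hx => absurd (by simp [h0]) ((hh x).2 hx)⟩
    simp only [Finset.prod_update_of_mem (Finset.mem_univ k),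
      apply_update (fun _ x => ENNReal.ofReal (∑ i, ‖τ i x‖ ^ 2) ^ (-c)), ← mul_assoc] at h1
    rw [lintegral_mul_const'' _ (by fun_prop)] at h1
    have h2 := (ENNReal.mul_lt_top_iff.1 h1).elim (·.1) fun h => h.elim
      (fun h => h ▸ ENNReal.zero_lt_top) fun h => absurd h
        (Finset.prod_ne_zero_iff.2 fun j _ => by simp [hc])
    obtain ⟨a, ha⟩ := hs h (fun x => u (update q k x)) h0
      (fun x hx => Fp.diff_slice D' hπ (hu _ ((hh x).1 hx))) (by
        refine lt_of_eq_of_lt (lintegral_congr_ae ((D.null_poly h0).mono fun x hx => ?_)) h2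
        simp only [piecewise_eq_of_mem _ _ _ ((hh x).1 hx)])
    exact ⟨a, fun x hx => ha x ((hh x).2 hx)⟩
  refine Fp.mem_of_dual τ {x | update p k x ∈ U} (fun x => u (update p k x)) fun l hl => ?_
  have cx : ∀ x : S, Continuous fun q : κ → S => update q k x := fun x => by fun_prop
  have c0 : ∀ x : S, update p k x ∈ U → ContinuousAt (fun q => u (update q k x)) p := fun x hx =>
    Tendsto.comp (cu _ hx) ((cx x).tendsto p)
  have c1 : ContinuousAt (fun q => ∑ x ∈ l.support, l x * u (update q k x)) p :=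
    tendsto_finsetSum _ fun x _ => (c0 x x.2).tendsto.const_mul _
  have e1 : ∀ᶠ q in 𝓝 p, ∀ x ∈ l.support, update q k x ∈ U :=
    (eventually_all_finset _).2 fun x _ => (cx x).continuousAt.eventually (oU.mem_nhds x.2)
  by_contra hne
  obtain ⟨q, ⟨a, ha⟩, q1, q2⟩ := (Measure.dense_of_ae ae).inter_nhds_nonempty
    (e1.and (c1.eventually_ne hne))
  refine q2 ?_
  rw [Finset.sum_congr rfl fun x hx => by rw [ha x (q1 x hx), Finset.mul_sum],
    Finset.sum_comm]
  refine Finset.sum_eq_zero fun i _ => ?_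
  have := congrArg (a i * ·) (hl i)
  simp only [Finsupp.sum, Finset.mul_sum, mul_zero] at this
  rw [← this]
  exact Finset.sum_congr rfl fun x _ => by ring

/-- coefficients are unique -/
theorem Ind.pi (hi : Ind τ) : Ind fun (I : κ → r) (p : κ → S) => ∏ k, τ (I k) (p k) := by
  intro U hU ⟨p0, h0⟩ a ha
  obtain ⟨O, hO, sO⟩ := isOpen_pi_iff'.1 hU p0 h0
  let M : MultilinearMap ℂ (fun _ : κ => r → ℂ) ℂ := ∑ J, a J •
    (MultilinearMap.mkPiAlgebra ℂ κ ℂ).compLinearMap fun k => LinearMap.proj (J k)
  have hM : ∀ v, M v = ∑ J, a J * ∏ k, v k (J k) := fun v => by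
    simp [M]
  have z : M = 0 := MultilinearMap.ext_of_span_eq_top
    (g := fun k (x : O k) i => τ i x) (fun k => by
      by_contra hne
      obtain ⟨f, f0, hf⟩ := Submodule.exists_le_ker_of_lt_top _ (lt_top_iff_ne_top.2 hne)
      have := hi (O k) (hO k).1 ⟨_, (hO k).2⟩ (fun i => f fun j => if i = j then 1 else 0)
        fun x hx => by
          have := hf (Submodule.subset_span ⟨⟨x, hx⟩, rfl⟩)
          rw [LinearMap.mem_ker, f.pi_apply_eq_sum_univ] at this
          simpa [mul_comm] using this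
      refine f0 (LinearMap.ext fun v => ?_)
      rw [f.pi_apply_eq_sum_univ]
      simp [fun i => congrFun this i])
    fun j => by
      rw [hM]
      exact ha (fun k => j k) (sO fun k _ => (j k).2)
  funext I
  have := hM fun k => Pi.single (I k) 1
  rw [z, Finset.sum_eq_single I] at this
  · simpa using this.symm
  · intro J _ hJ
    obtain ⟨k, hk⟩ := ne_iff.1 hJ
    rw [Finset.prod_eq_zero (Finset.mem_univ k) (by simp [hk]), mul_zero]
  · simp

end Pool.Agent.Lib.MP_5c318e_ag
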